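import Pool.Agent.Helper74.LC.Fin

/-!
# MP_4546c4_nt: representations which are not eventually periodic have superpolynomial complexity
-/

set_option autoImplicit false

open Filter

namespace Pool.Agent.Results.MP_4546c4_nt.SuperpolynomialComplexity

open Pool.Agent.Helper74.LC

/-- Every representation of a rational number is either eventually periodic and isolated among the representations, or its
complexity is superpolynomial; if there are infinitely many representations then one of the second kind is a limit of
representations, and all but countably many representations are of the second kind. -/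
theorem result (x : ℚ) :
    (∀ A : Set ℕ, IsRep x A → (EvPer A ∧ ∃ N : ℕ, ∀ A' : Set ℕ, IsRep x A' → (∀ n, n ≤ N → (n ∈ A' ↔ n ∈ A)) → A' = A) ∨ Big A) ∧
    ({A : Set ℕ | IsRep x A}.Infinite → ∃ A : Set ℕ, IsRep x A ∧ Big A ∧
      ∀ N : ℕ, ∃ A' : Set ℕ, IsRep x A' ∧ A' ≠ A ∧ ∀ n, n ≤ N → (n ∈ A' ↔ n ∈ A)) ∧
    {A : Set ℕ | IsRep x A ∧ ¬ Big A}.Countable :=
  main x

end Pool.Agent.Results.MP_4546c4_nt.SuperpolynomialComplexity
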